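import Pool.Agent.H9C.QR.Fin

/-!
# Quillen's question for complete regular local rings in which `p` is an expression in parameters
other than `r`
-/

set_option autoImplicit false

open IsLocalRing

namespace Pool.Agent.Results.MP_3e5078_ag.AdditionalParameter

open Pool.Agent.W394.BQN

/-- `r` is a regular parameter of `R` and all finitely generated projective modules over `R[1/r]`
and over the polynomial rings over `R[1/r]` are free -/
def QuillenYes (R : Type) [CommRing R] [IsLocalRing R] (r : R) : Prop :=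
  r ∈ maximalIdeal R ∧ r ∉ maximalIdeal R ^ 2 ∧ AllFree (Localization.Away r)

/-- `R` has dimension `n + 2` and its maximal ideal is generated by `r, x_0,...,x_n` -/
def Params (R : Type) [CommRing R] [IsLocalRing R] (n : ℕ) (x : Fin (n + 1) → R) (r : R) : Prop :=
  ringKrullDim R = ((n + 2 : ℕ) : WithBot ℕ∞) ∧
    maximalIdeal R = Ideal.span (insert r (Set.range x))

/-- `R` has dimension `n + 3` and its maximal ideal is generated by `r, x_0,...,x_n, t` -/
def Params3 (R : Type) [CommRing R] [IsLocalRing R] (n : ℕ) (x : Fin (n + 1) → R) (t r : R) :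
    Prop :=
  ringKrullDim R = ((n + 3 : ℕ) : WithBot ℕ∞) ∧
    maximalIdeal R = Ideal.span (insert r (Set.range x ∪ {t}))

/-- `a = u ∏_(i ∈ I) x_i + v ∏_(j ∈ J) x_j` with units `u`, `v` and disjoint sets `I`, `J` with at
least two elements each -/
def TwoProducts {R : Type} [CommRing R] {n : ℕ} (x : Fin n → R) (a : R) : Prop :=
  ∃ (I J : Finset (Fin n)) (u v : R), Disjoint I J ∧ 2 ≤ I.card ∧ 2 ≤ J.card ∧
    IsUnit u ∧ IsUnit v ∧ a = u * ∏ i ∈ I, x i + v * ∏ j ∈ J, x j

/-- `a` is a unit times the product of the `x_i`, `i ∈ J`, `J` not empty -/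
def OneProduct {R : Type} [CommRing R] {n : ℕ} (x : Fin n → R) (a : R) : Prop :=
  ∃ J : Finset (Fin n), J.Nonempty ∧ Associated a (∏ i ∈ J, x i)

/-- perfect residue field, `p` a product of parameters or a sum of two such products -/
def PerfectResidueField : Prop :=
  ∀ p : ℕ, p.Prime → ∀ (R : Type) [CommRing R] [IsRegularLocalRing R]
    [IsAdicComplete (maximalIdeal R) R] [CharP (ResidueField R) p],
    Function.Surjective (fun a : ResidueField R => a ^ p) →
    ∀ (n : ℕ) (x : Fin (n + 1) → R) (r : R), Params R n x r →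
      OneProduct x (p : R) ∨ TwoProducts x (p : R) → QuillenYes R r

/-- perfect residue field, `p` a power series in a product of parameters and another parameter -/
def PerfectResidueFieldSeries : Prop :=
  ∀ (p : ℕ) [Fact p.Prime] (R : Type) [CommRing R] [IsRegularLocalRing R]
    [IsAdicComplete (maximalIdeal R) R] [CharP (ResidueField R) p],
    Function.Surjective (fun a : ResidueField R => a ^ p) →
    ∀ (n : ℕ) (x : Fin (n + 1) → R) (t r : R), Params3 R n x t r →
    ∀ J : Finset (Fin (n + 1)), J.Nonempty →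
    ∀ ψ : MvPowerSeries (Fin 2) (WittVector p (ResidueField R)) →+* R,
      Function.Surjective ((residue R).comp ψ) →
      ψ (MvPowerSeries.X 0) = ∏ i ∈ J, x i → ψ (MvPowerSeries.X 1) = t →
      (∃ g ∈ Ideal.span {MvPowerSeries.X 0, MvPowerSeries.X 1}, ψ g = (p : R)) → QuillenYes R r

/-- arbitrary residue field, with a coefficient ring `V`, a complete discrete valuation ring of
characteristic zero with uniformizer `π` -/
def WithCoefficientRing : Prop :=
  ∀ (V : Type) [CommRing V] [IsDomain V] [IsPrincipalIdealRing V] [IsLocalRing V]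
    [IsAdicComplete (maximalIdeal V) V] [CharZero V] (π : V), Prime π →
    ∀ (R : Type) [CommRing R] [IsRegularLocalRing R] [IsAdicComplete (maximalIdeal R) R]
      (φ : V →+* R), Function.Surjective ((residue R).comp φ) →
    ∀ (n : ℕ) (x : Fin (n + 1) → R) (r : R), Params R n x r →
      OneProduct x (φ π) ∨ (TwoProducts x (φ π) ∧ ∃ p : ℕ, p.Prime ∧ (p : V) ∈ maximalIdeal V) →
        QuillenYes R r

/-- rings over a complete regular local ring `W` of dimension two with regular system of parameters
`u, s`, where `u` maps to `∏_(i ∈ J) x_i` up to a unit and `s` to another parameter -/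
def WithBaseRing : Prop :=
  ∀ (W : Type) [CommRing W] [IsRegularLocalRing W] [IsAdicComplete (maximalIdeal W) W],
    ringKrullDim W = 2 → ∀ u s : W, maximalIdeal W = Ideal.span {u, s} →
    ∀ (R : Type) [CommRing R] [IsRegularLocalRing R] [IsAdicComplete (maximalIdeal R) R]
      (φ : W →+* R), Function.Surjective ((residue R).comp φ) →
    ∀ (n : ℕ) (x : Fin (n + 1) → R) (r : R), Params3 R n x (φ s) r →
      OneProduct x (φ u) → QuillenYes R r

/-- examples of characteristic zero in which `p` is the product of any prescribed parameters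
except one -/
def Examples : Prop :=
  ∀ p : ℕ, p.Prime → ∀ (n : ℕ) (J : Finset (Fin (n + 1))), J.Nonempty →
    ∃ (R : Type) (_ : CommRing R) (_ : IsRegularLocalRing R) (x : Fin (n + 1) → R) (r : R),
      IsAdicComplete (maximalIdeal R) R ∧ CharZero R ∧ Params R n x r ∧
      (p : R) = ∏ i ∈ J, x i ∧ QuillenYes R r

/-- **Quillen's question for complete regular local rings `R` and regular parameters `r` such that
`p` is the product of other parameters, a sum of two such products, or a power series in such a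
product and another parameter.** -/
theorem result : PerfectResidueField ∧ PerfectResidueFieldSeries ∧ WithCoefficientRing ∧
    WithBaseRing ∧ Examples := by
  refine ⟨?_, ?_, ?_, ?_, ?_⟩
  · rintro p hp R _ _ _ _ hperf n x r hx (⟨J, hJ, h⟩ | ⟨I, J, u, v, hIJ, hI, hJ, hu, hv, h⟩)
    · exact Pool.Agent.H9C.QR.cs_perf p hp R hperf n hx.1 x r hx.2 J hJ h
    · exact Pool.Agent.H9C.QR.sq_perf p hp R hperf n hx.1 x r hx.2 I J hIJ hI hJ u v hu hv h
  · intro p hp R _ _ _ _ hperf n x t r hx J hJ ψ hψ h0 h1 hg
    obtain ⟨g, hg, hgp⟩ := hg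
    exact Pool.Agent.H9C.QR.dt_perf p R hperf n hx.1 x t r hx.2 J hJ ψ hψ
      (h0 ▸ Associated.refl _) h1 g hg hgp
  · rintro V _ _ _ _ _ _ π hπ R _ _ _ φ hφ n x r hx
      (⟨J, hJ, h⟩ | ⟨⟨I, J, u, v, hIJ, hI, hJ, hu, hv, h⟩, hp⟩)
    · exact Pool.Agent.H9C.QR.cs_quillen π hπ R φ hφ n hx.1 x r hx.2 J hJ h
    · exact Pool.Agent.H9C.QR.sq_quillen π hπ hp R φ hφ n hx.1 x r hx.2 I J hIJ hI hJ u v hu hv h
  · rintro W _ _ _ hW u s hm R _ _ _ φ hφ n x r hx ⟨J, hJ, h⟩
    exact Pool.Agent.H9C.QR.dt_quillen hW u s hm R φ hφ n hx.1 x r hx.2 J hJ h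
  · intro p hp n J hJ
    obtain ⟨R, i1, i2, x, r, h1, h2, h3, h4, h5, h6⟩ := Pool.Agent.H9C.QR.ex_final p hp n J hJ
    exact ⟨R, i1, i2, x, r, h1, h2, ⟨h3, h4⟩, h5, h6⟩

end Pool.Agent.Results.MP_3e5078_ag.AdditionalParameter
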