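import Pool.Agent.H9C.QR.MON

/-!
# Quillen's question for complete regular local rings in which `p` is, up to a unit, the
monomial `x_0^(a+1) x_1 x_2^k` in three parameters, and the parameter `x_0`
-/

set_option autoImplicit false

open IsLocalRing

namespace Pool.Agent.Results.MP_3e5078_ag.ThreeFactors

open Pool.Agent.W394.BQN Pool.Agent.H9C.QR

/-- `R` is complete of dimension `r + 3` and its maximal ideal is generated by
`x_0,...,x_(r+2)` -/
def Params (R : Type) [CommRing R] [IsLocalRing R] (r : ℕ) (x : Fin (r + 3) → R) : Prop :=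
  IsAdicComplete (maximalIdeal R) R ∧ ringKrullDim R = ((r + 3 : ℕ) : WithBot ℕ∞) ∧
    maximalIdeal R = Ideal.span (Set.range x)

/-- `R` is complete of dimension `r + 3` and its maximal ideal is generated by
`x_0,...,x_(r+1), t` -/
def ParamsT (R : Type) [CommRing R] [IsLocalRing R] (r : ℕ) (x : Fin (r + 2) → R) (t : R) :
    Prop :=
  IsAdicComplete (maximalIdeal R) R ∧ ringKrullDim R = ((r + 3 : ℕ) : WithBot ℕ∞) ∧
    maximalIdeal R = Ideal.span (Set.range x ∪ {t})

/-- `x` is a regular parameter of `R` and all finitely generated projective modules over `R[1/x]`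
and over the polynomial rings over `R[1/x]` are free -/
def QuillenYes (R : Type) [CommRing R] [IsLocalRing R] (x : R) : Prop :=
  x ∈ maximalIdeal R ∧ x ∉ maximalIdeal R ^ 2 ∧ AllFree (Localization.Away x)

/-- perfect residue field of characteristic `p`, `p` a unit times `x_0^(a+1) x_1 x_2^k` -/
def PerfectResidueField : Prop :=
  ∀ p : ℕ, p.Prime → ∀ (R : Type) [CommRing R] [IsRegularLocalRing R] [CharP (ResidueField R) p],
    Function.Surjective (fun a : ResidueField R => a ^ p) →
    ∀ (r : ℕ) (x : Fin (r + 3) → R), Params R r x → ∀ a k : ℕ,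
      Associated (p : R) (x 0 ^ (a + 1) * x 1 * x 2 ^ k) → QuillenYes R (x 0)

/-- perfect residue field of characteristic `p`, `p` a power series in `t` and
`x_0^(a+1) x_1 t^k` -/
def PerfectResidueFieldSeries : Prop :=
  ∀ (p : ℕ) [Fact p.Prime] (R : Type) [CommRing R] [IsRegularLocalRing R]
    [CharP (ResidueField R) p],
    Function.Surjective (fun a : ResidueField R => a ^ p) →
    ∀ (r : ℕ) (x : Fin (r + 2) → R) (t : R), ParamsT R r x t → ∀ a k : ℕ,
    ∀ ψ : MvPowerSeries (Fin 2) (WittVector p (ResidueField R)) →+* R,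
      Function.Surjective ((residue R).comp ψ) →
      ψ (MvPowerSeries.X 0) = x 0 ^ (a + 1) * x 1 * t ^ k → ψ (MvPowerSeries.X 1) = t →
      (∃ g ∈ Ideal.span {MvPowerSeries.X 0, MvPowerSeries.X 1}, ψ g = (p : R)) →
        QuillenYes R (x 0)

/-- arbitrary residue field, with a coefficient ring `V`, a complete discrete valuation ring with
uniformizer `π`; `π` is a unit times `x_0^(a+1) x_1 x_2^k` -/
def WithCoefficientRing : Prop :=
  ∀ (V : Type) [CommRing V] [IsDomain V] [IsPrincipalIdealRing V] [IsLocalRing V]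
    [IsAdicComplete (maximalIdeal V) V] (π : V), Prime π →
    ∀ (R : Type) [CommRing R] [IsRegularLocalRing R] (φ : V →+* R),
      Function.Surjective ((residue R).comp φ) →
    ∀ (r : ℕ) (x : Fin (r + 3) → R), Params R r x → ∀ a k : ℕ,
      Associated (φ π) (x 0 ^ (a + 1) * x 1 * x 2 ^ k) → QuillenYes R (x 0)

/-- rings over a complete regular local ring `W` of dimension two with regular system of
parameters `u, t`; `u` is a unit times `x_0^(a+1) x_1 t^k` -/
def WithBaseRing : Prop :=
  ∀ (W : Type) [CommRing W] [IsRegularLocalRing W] [IsAdicComplete (maximalIdeal W) W],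
    ringKrullDim W = 2 → ∀ u t : W, maximalIdeal W = Ideal.span {u, t} →
    ∀ (R : Type) [CommRing R] [IsRegularLocalRing R] (φ : W →+* R),
      Function.Surjective ((residue R).comp φ) →
    ∀ (r : ℕ) (x : Fin (r + 2) → R), ParamsT R r x (φ t) → ∀ a k : ℕ,
      Associated (φ u) (x 0 ^ (a + 1) * x 1 * φ t ^ k) → QuillenYes R (x 0)

/-- examples of characteristic zero with `p = x_0^(a+1) x_1 x_2^k` in all dimensions -/
def Examples : Prop :=
  ∀ p : ℕ, p.Prime → ∀ r a k : ℕ,
    ∃ (R : Type) (_ : CommRing R) (_ : IsRegularLocalRing R) (x : Fin (r + 3) → R),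
      Params R r x ∧ CharZero R ∧ (p : R) = x 0 ^ (a + 1) * x 1 * x 2 ^ k ∧
        QuillenYes R (x 0)

theorem yes {R : Type} [CommRing R] [IsLocalRing R] {x y z : R} {k : ℕ} (h : MonAll R x y z k) :
    QuillenYes R x := ⟨h.1.1, h.1.2, h.2.1⟩

/-- **Quillen's question for complete regular local rings `R` such that `p` is a unit times
`x_0^(a+1) x_1 x_2^k`, or a power series in `t` and `x_0^(a+1) x_1 t^k`, and the parameter
`x_0`.** -/
theorem result : PerfectResidueField ∧ PerfectResidueFieldSeries ∧ WithCoefficientRing ∧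
    WithBaseRing ∧ Examples := by
  refine ⟨?_, ?_, ?_, ?_, ?_⟩
  · intro p hp R _ _ _ hperf r x hx a k h
    exact yes (mon_p p hp R hx.1 hperf r hx.2.1 x hx.2.2 a k h)
  · intro p hp R _ _ _ hperf r x t hx a k ψ hψ h0 h1 hg
    obtain ⟨g, hg, hgp⟩ := hg
    exact yes (mon_s p hp.out R hx.1 hperf r hx.2.1 x t hx.2.2 a k ψ hψ (h0 ▸ Associated.refl _) h1
      g hg hgp)
  · intro V _ _ _ _ _ π hπ R _ _ φ hφ r x hx a k h
    exact yes (mon_v π hπ R hx.1 φ hφ r hx.2.1 x hx.2.2 a k h)
  · intro W _ _ _ hW u t hut R _ _ φ hφ r x hx a k h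
    exact yes (mon_w hW u t hut R hx.1 φ hφ r hx.2.1 x hx.2.2 a k h)
  · intro p hp r a k
    obtain ⟨R, i1, i2, x, h1, h2, h3, h4, h5, h6⟩ := mon_e p hp r a k
    exact ⟨R, i1, i2, x, ⟨h1, h3, h4⟩, h2, h5, yes h6⟩

end Pool.Agent.Results.MP_3e5078_ag.ThreeFactors
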